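import Pool.Agent.Helper6.TRI.Defs

/-!
# TRI: definitions for surfaces
-/

set_option autoImplicit false

namespace Pool.Agent.TRI

open Module MvPolynomial

universe u

/-- the point is on the closed set of the ideal -/
def OnX {k₀ K : Type*} [Field k₀] [Field K] [Algebra k₀ K] {N : ℕ} (I : Ideal (MvPolynomial (Fin N) k₀)) (x : Fin N → K) : Prop :=
  ∀ g ∈ I, aeval x g = 0

/-- the homogeneous ideal of a geometrically integral surface in the projective space `P^N` -/
structure Surf {k₀ : Type u} [Field k₀] {N : ℕ} (I : Ideal (MvPolynomial (Fin (N + 1)) k₀)) : Prop where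
  hom : ∀ p ∈ I, ∀ m, homogeneousComponent m p ∈ I
  prime : I.IsPrime
  tr : Algebra.trdeg k₀ (MvPolynomial (Fin (N + 1)) k₀ ⧸ I) = 3
  geo : ∀ (K : Type u) [Field K] [Algebra k₀ K], (I.map (MvPolynomial.map (algebraMap k₀ K))).IsPrime

/-- the linear forms in the ideal -/
def linI {k₀ : Type*} [Field k₀] {N : ℕ} (I : Ideal (MvPolynomial (Fin (N + 1)) k₀)) : Submodule k₀ (Fin (N + 1) → k₀) where
  carrier := {m | ∑ j, C (m j) * X j ∈ I}
  zero_mem' := by simp
  add_mem' := by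
    intro m m' h h'
    have : ∑ j, C ((m + m') j) * X j = ∑ j, C (m j) * X j + ∑ j, C (m' j) * (X j : MvPolynomial (Fin (N + 1)) k₀) := by
      rw [← Finset.sum_add_distrib]
      exact Finset.sum_congr rfl fun j _ => by rw [Pi.add_apply, C_add, add_mul]
    rw [Set.mem_ofPred_eq, this]
    exact I.add_mem h h'
  smul_mem' := by
    intro c m h
    have : ∑ j, C ((c • m) j) * X j = C c * ∑ j, C (m j) * (X j : MvPolynomial (Fin (N + 1)) k₀) := by
      rw [Finset.mul_sum]
      exact Finset.sum_congr rfl fun j _ => by rw [Pi.smul_apply, smul_eq_mul, C_mul, mul_assoc]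
    rw [Set.mem_ofPred_eq, this]
    exact I.mul_mem_left _ h

/-- the surface is a plane -/
def Plane {k₀ : Type*} [Field k₀] {N : ℕ} (I : Ideal (MvPolynomial (Fin (N + 1)) k₀)) : Prop := finrank k₀ (linI I) + 2 = N

/-- `w_a`, the product of the powers of the linear forms -/
noncomputable def wv {k E : Type*} [Field k] [Field E] [Algebra k E] {N q : ℕ} (l : Fin q → Fin N → k) (ξ : Fin N → E) (a : Fin q → ℤ) : E :=
  ∏ i, lv (l i) ξ ^ a i

/-- the gradient of `f` at `x` -/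
noncomputable def grad {k₀ K : Type*} [Field k₀] [Field K] [Algebra k₀ K] {N : ℕ} (f : MvPolynomial (Fin (N + 1)) k₀)
    (x : Fin (N + 1) → K) : Fin (N + 1) → K := fun c => aeval x (pderiv c f)

/-- the product of the forms `l m`, `m ≠ i, j`, times the determinant with the rows `∇ f t`, `l i`, `l j` and the unit vector `c` -/
noncomputable def jac {k₀ K : Type*} [Field k₀] [Field K] [Algebra k₀ K] {N n q : ℕ} (f : Fin n → MvPolynomial (Fin (N + 1)) k₀)
    (l : Fin q → Fin (N + 1) → K) (c : Fin (N + 1)) (i j : Fin q) : MvPolynomial (Fin (N + 1)) K :=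
  (if h : n + 3 = N + 1 then Matrix.det (Matrix.of fun a b : Fin (N + 1) =>
    (Fin.append (fun t => fun b => MvPolynomial.map (algebraMap k₀ K) (pderiv b (f t)))
      ![fun b => C (l i b), fun b => C (l j b), Pi.single c 1] : Fin (n + 3) → Fin (N + 1) → MvPolynomial (Fin (N + 1)) K)
        (Fin.cast h.symm a) b) else 0) *
  ∏ m ∈ Finset.univ.filter (fun m => m ≠ i ∧ m ≠ j), ∑ b, C (l m b) * X b

/-- no three of the forms have a common zero on `X`, no three nodes are on a line, no line of `X` contains two nodes, except for a plane -/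
structure NodesOK {k₀ K : Type*} [Field k₀] [Field K] [Algebra k₀ K] {N q : ℕ} (I : Ideal (MvPolynomial (Fin (N + 1)) k₀))
    (l : Fin q → Fin (N + 1) → K) : Prop where
  three : ∀ z : Fin (N + 1) → K, z ≠ 0 → OnX I z → ∀ g : Fin 3 → Fin q, Function.Injective g →
    ¬ (lv (l (g 0)) z = 0 ∧ lv (l (g 1)) z = 0 ∧ lv (l (g 2)) z = 0)
  col : ∀ z₁ z₂ z₃ : Fin (N + 1) → K, z₁ ≠ 0 → z₂ ≠ 0 → z₃ ≠ 0 → OnX I z₁ → OnX I z₂ → OnX I z₃ → ∀ g : Fin 6 → Fin q,
    Function.Injective g → lv (l (g 0)) z₁ = 0 → lv (l (g 1)) z₁ = 0 → lv (l (g 2)) z₂ = 0 → lv (l (g 3)) z₂ = 0 →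
    lv (l (g 4)) z₃ = 0 → lv (l (g 5)) z₃ = 0 → LinearIndependent K ![z₁, z₂, z₃]
  line : ¬ Plane I → ∀ z₁ z₂ : Fin (N + 1) → K, LinearIndependent K ![z₁, z₂] → (∀ s t : K, OnX I fun j => s * z₁ j + t * z₂ j) →
    ∀ g : Fin 4 → Fin q, Function.Injective g →
    ¬ (lv (l (g 0)) z₁ = 0 ∧ lv (l (g 1)) z₁ = 0 ∧ lv (l (g 2)) z₂ = 0 ∧ lv (l (g 3)) z₂ = 0)

end Pool.Agent.TRI
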