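import Pool.Agent.Helper67.TRI.ArithS
import Pool.Agent.Helper20.TRI.CrvS
import Pool.Agent.Helper23.TRI.Scal
import Pool.Agent.Helper29.TRI.LamN
import Pool.Agent.Helper24.TRI.MemI
import Pool.Agent.Helper42.TRI.Curve
import Pool.Agent.Helper17.TRI.G12
import Pool.Agent.Helper17.TRI.G13
import Pool.Agent.Helper42.TRI.Geo
import Pool.Agent.Helper64.TRI.S1

/-!
# TRI, second version: sequences with moving forms
-/

set_option autoImplicit false

namespace Pool.Agent.TRI

open Module MvPolynomial NumberField Filter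
open Pool.Agent.Helper64.Vojta (Pl nv sn above)
open Pool.Agent.Chart (fld dg crd hgt val lam)

universe u

private theorem hgt0 {k : Type u} [Field k] [NumberField k] {N : ℕ} (x : Fin N → AlgebraicClosure k) : 0 ≤ hgt x := by
  unfold hgt
  exact div_nonneg (Height.logHeight_nonneg _) (Nat.cast_nonneg _)

theorem BadS.comp {k : Type u} [Field k] [NumberField k] {N q r : ℕ} {S : Finset (Pl k)} {l : ℕ → Fin q → Fin (N + 1) → k}
    {x : ℕ → Fin (N + 1) → AlgebraicClosure k} (h : BadS r S l x) {φ : ℕ → ℕ} (hφ : StrictMono φ) :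
    BadS r S (fun a => l (φ a)) fun a => x (φ a) where
  one := fun a => h.one _
  nrm := by
    obtain ⟨t, h1, h2⟩ := h.nrm
    exact ⟨t, h1, fun a i => h2 _ i⟩
  deg := fun a => h.deg _
  out := fun a i => h.out _ i
  big := by
    intro a
    refine lt_of_le_of_lt ?_ (h.big (φ a))
    have h1 : (a : ℝ) ≤ φ a := by exact_mod_cast hφ.le_apply
    have h2 : 1 / ((φ a : ℝ) + 1) ≤ 1 / ((a : ℝ) + 1) := by
      apply one_div_le_one_div_of_le
      · positivity
      · linarith
    have h3 : (0 : ℝ) ≤ 1 + ∑ i, Height.logHeight (l (φ a) i) :=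
      add_nonneg zero_le_one (Finset.sum_nonneg fun i _ => Height.logHeight_nonneg _)
    have h4 := mul_le_mul_of_nonneg_right h1 h3
    have h5 := mul_le_mul_of_nonneg_right h2 (hgt0 (x (φ a)))
    have h6 : ((q : ℝ) - 1 / ((φ a : ℝ) + 1)) * hgt (x (φ a)) = q * hgt (x (φ a)) - 1 / ((φ a : ℝ) + 1) * hgt (x (φ a)) := by ring
    have h7 : ((q : ℝ) - 1 / ((a : ℝ) + 1)) * hgt (x (φ a)) = q * hgt (x (φ a)) - 1 / ((a : ℝ) + 1) * hgt (x (φ a)) := by ring
    rw [h6, h7]
    linarith

/-- the transfer between sequences and germs -/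
structure Trf {k : Type u} [Field k] [NumberField k] {N : ℕ} (x : ℕ → Fin (N + 1) → AlgebraicClosure k) {k' E : Type u} [Field k']
    [Field E] [Algebra k k'] [Algebra k' E] [Algebra k E] (γ : (ℕ → k) → k') (ξ : Fin (N + 1) → E) : Prop where
  tr : ∀ (s : ℕ) (b : Fin s → ℕ → k), (∀ i, SlowS x (b i)) → ∀ F : MvPolynomial (Fin s ⊕ Fin (N + 1)) k,
        aeval (Sum.elim (fun i => algebraMap k' E (γ (b i))) ξ) F = 0 ↔
          ∀ᶠ a in (hyperfilter ℕ : Filter ℕ), aeval (Sum.elim (fun i => algebraMap k (AlgebraicClosure k) (b i a)) (x a)) F = 0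

section

variable {k : Type u} [Field k] [NumberField k] {N : ℕ} {x : ℕ → Fin (N + 1) → AlgebraicClosure k} {k' E : Type u} [Field k']
    [Field E] [Algebra k k'] [Algebra k' E] [Algebra k E] [IsScalarTower k k' E] {γ : (ℕ → k) → k'} {ξ : Fin (N + 1) → E}

omit [IsScalarTower k k' E] in
theorem Trf.gen (h : Trf x γ ξ) {ι : Type*} [Fintype ι] (b : ι → ℕ → k) (hb : ∀ i, SlowS x (b i))
    (F : MvPolynomial (ι ⊕ Fin (N + 1)) k) : aeval (Sum.elim (fun i => algebraMap k' E (γ (b i))) ξ) F = 0 ↔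
      ∀ᶠ a in (hyperfilter ℕ : Filter ℕ), aeval (Sum.elim (fun i => algebraMap k (AlgebraicClosure k) (b i a)) (x a)) F = 0 := by
  classical
  set e := Fintype.equivFin ι
  have h1 := h.tr (Fintype.card ι) (fun i => b (e.symm i)) (fun i => hb _) (rename (Sum.map e id) F)
  have h2 : ∀ {R : Type u} [CommRing R] [Algebra k R] (f : ι → R) (g : Fin (N + 1) → R),
      aeval (Sum.elim (fun i => f (e.symm i)) g) (rename (Sum.map e id) F) = aeval (Sum.elim f g) F := by
    intro R _ _ f g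
    rw [aeval_rename]
    congr 2
    funext i
    rcases i with i | i
    · simp
    · simp
  rw [h2 (fun i => algebraMap k' E (γ (b i)))] at h1
  rw [h1]
  refine eventually_congr (Eventually.of_forall fun a => ?_)
  rw [h2 (fun i => algebraMap k (AlgebraicClosure k) (b i a))]

omit [IsScalarTower k k' E] in
theorem Trf.pt (h : Trf x γ ξ) (P : MvPolynomial (Fin (N + 1)) k) : aeval ξ P = 0 ↔
    ∀ᶠ a in (hyperfilter ℕ : Filter ℕ), aeval (x a) P = 0 := by
  have h1 := h.gen (ι := Fin 0) (fun i => i.elim0) (fun i => i.elim0) (rename Sum.inr P)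
  simpa only [aeval_rename, Sum.elim_comp_inr] using h1

theorem Trf.slow (h : Trf x γ ξ) {ι : Type*} [Fintype ι] (b : ι → ℕ → k) (hb : ∀ i, SlowS x (b i)) (P : MvPolynomial ι k) :
    aeval (fun i => γ (b i)) P = 0 ↔ ∀ᶠ a in (hyperfilter ℕ : Filter ℕ), aeval (fun i => b i a) P = 0 := by
  have h1 := h.gen b hb (rename Sum.inl P)
  simp only [aeval_rename, Sum.elim_comp_inl] at h1
  have h2 : aeval (fun i => algebraMap k' E (γ (b i))) P = algebraMap k' E (aeval (fun i => γ (b i)) P) :=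
    aeval_algebraMap_apply E (fun i => γ (b i)) P
  have h3 : ∀ a, aeval (fun i => algebraMap k (AlgebraicClosure k) (b i a)) P =
      algebraMap k (AlgebraicClosure k) (aeval (fun i => b i a) P) :=
    fun a => aeval_algebraMap_apply (AlgebraicClosure k) (fun i => b i a) P
  rw [h2, map_eq_zero] at h1
  rw [h1]
  refine eventually_congr (Eventually.of_forall fun a => ?_)
  rw [h3, map_eq_zero]

end

/-- every bad sequence has a limit on a line through two nodes, in a plane, and `q = 2 r + 2` -/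
theorem seq_s {k₀ : Type u} [Field k₀] [NumberField k₀] {N q r : ℕ} (hq : 2 * r + 2 ≤ q)
    {I : Ideal (MvPolynomial (Fin (N + 1)) k₀)} (hX : Surf I) :
    ∃ Φ : MvPolynomial (Fin q × Fin (N + 1)) k₀, Φ ≠ 0 ∧
      ∀ (k : Type u) [Field k] [NumberField k] [Algebra k₀ k] (S : Finset (Pl k)) (l : ℕ → Fin q → Fin (N + 1) → k)
      (x : ℕ → Fin (N + 1) → AlgebraicClosure k), (∀ a, aeval (fun p : Fin q × Fin (N + 1) => l a p.1 p.2) Φ ≠ 0) →
      (∀ a, OnX I (x a)) → BadS r S l x →
      q = 2 * r + 2 ∧ Plane I ∧ ∃ (φ : ℕ → ℕ) (k' E : Type u) (_ : Field k') (_ : Field E) (_ : Algebra k k') (_ : Algebra k' E)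
        (_ : Algebra k E) (_ : IsScalarTower k k' E) (γ : (ℕ → k) → k') (ξ : Fin (N + 1) → E) (g : Fin 4 → Fin q)
        (z₁ z₂ : Fin (N + 1) → E), Trf (fun a => x (φ a)) γ ξ ∧ (∀ i j, SlowS (fun a => x (φ a)) fun a => l (φ a) i j) ∧
        Function.Injective g ∧ LinearIndependent E ![z₁, z₂] ∧
        lv (fun j => γ fun a => l (φ a) (g 0) j) z₁ = 0 ∧ lv (fun j => γ fun a => l (φ a) (g 1) j) z₁ = 0 ∧
        lv (fun j => γ fun a => l (φ a) (g 2) j) z₂ = 0 ∧ lv (fun j => γ fun a => l (φ a) (g 3) j) z₂ = 0 ∧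
        ∃ s t : E, ∀ j, ξ j = s * z₁ j + t * z₂ j := by
  classical
  obtain ⟨Φ₁, h1, hnd⟩ := nondense_s (r := r) hq hX
  obtain ⟨Φ₂, h2, hgeo⟩ := geo (r := r) hX hq
  refine ⟨Φ₁ * Φ₂, mul_ne_zero h1 h2, ?_⟩
  intro k _ _ _ S l x hl hX' hb
  simp only [map_mul] at hl
  obtain ⟨φ, k', E, iF', iF, iA1, iA2, iA3, iT, γ, ξ, r', A, iT', ω, c, h, hφ, hr', hξ1, hξg, hξt, hsl, hsur, htr, hdat, hlξ, hI2⟩ :=
    arith_s (by omega) S l x hb
  have hT : Trf (fun a => x (φ a)) γ ξ := ⟨htr⟩
  let _ : Algebra k₀ E := ((algebraMap k E).comp (algebraMap k₀ k)).toAlgebra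
  let _ : Algebra k₀ k' := ((algebraMap k k').comp (algebraMap k₀ k)).toAlgebra
  have : IsScalarTower k₀ k E := IsScalarTower.of_algebraMap_eq fun _ => rfl
  have : IsScalarTower k₀ k k' := IsScalarTower.of_algebraMap_eq fun _ => rfl
  have : IsScalarTower k₀ k' E := IsScalarTower.of_algebraMap_eq fun c => by
    show algebraMap k E (algebraMap k₀ k c) = algebraMap k' E (algebraMap k k' (algebraMap k₀ k c))
    rw [← IsScalarTower.algebraMap_apply k k' E]
  have : CharZero k' := charZero_of_injective_algebraMap (algebraMap k k').injective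
  have hon : OnX I ξ := by
    intro g hg
    have h3 := (hT.pt (MvPolynomial.map (algebraMap k₀ k) g)).2 (Eventually.of_forall fun a => by
      rw [aeval_map_algebraMap]
      exact hX' _ g hg)
    rwa [aeval_map_algebraMap] at h3
  have hl2 : aeval (fun p : Fin q × Fin (N + 1) => γ fun a => l (φ a) p.1 p.2) Φ₂ ≠ 0 := by
    intro h0
    have h3 := (hT.slow (fun p : Fin q × Fin (N + 1) => fun a => l (φ a) p.1 p.2) (fun p => hsl p.1 p.2)
      (MvPolynomial.map (algebraMap k₀ k) Φ₂)).1 (by rw [aeval_map_algebraMap]; exact h0)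
    obtain ⟨a, ha⟩ := h3.exists
    rw [aeval_map_algebraMap] at ha
    exact right_ne_zero_of_mul (hl (φ a)) ha
  obtain ⟨e, G, hGh, hGI, hG0, hGs⟩ := hnd k S (fun a => l (φ a)) (fun a => x (φ a)) (fun a => left_ne_zero_of_mul (hl _))
    (fun a => hX' _) (hb.comp hφ)
  set Ae := Finset.finsuppAntidiag (Finset.univ : Finset (Fin (N + 1))) e with hAe
  have hdeg : ∀ m ∈ Ae, m.degree = e := by
    intro m hm
    rw [hAe, Finset.mem_finsuppAntidiag] at hm
    rw [Finsupp.degree_eq_sum]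
    exact hm.1
  have hmem : ∀ m : Fin (N + 1) →₀ ℕ, m.degree = e → m ∈ Ae := by
    intro m hm
    rw [hAe, Finset.mem_finsuppAntidiag]
    refine ⟨?_, Finset.subset_univ _⟩
    rw [← hm, Finsupp.degree_eq_sum]
  set G' : MvPolynomial (Fin (N + 1)) k' := ∑ m ∈ Ae, monomial m (γ fun a => coeff m (G a)) with hG'
  have hG'h : G'.IsHomogeneous e := by
    rw [hG']
    exact IsHomogeneous.sum _ _ _ fun m hm => isHomogeneous_monomial _ (hdeg m hm)
  have hcf : ∀ m ∈ Ae, coeff m G' = γ fun a => coeff m (G a) := by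
    intro m hm
    rw [hG', coeff_sum, Finset.sum_eq_single m]
    · rw [coeff_monomial, if_pos rfl]
    · intro m' _ hne
      rw [coeff_monomial, if_neg hne]
    · intro h3
      exact absurd hm h3
  have hG'I : G' ∉ I.map (MvPolynomial.map (algebraMap k₀ k')) := by
    intro h0
    obtain ⟨t, L, hL⟩ := memI hX.hom e
    have h3 := (hL k' G' hG'h).1 h0
    have h4 : ∀ i, ∀ᶠ a in (hyperfilter ℕ : Filter ℕ), ∑ m ∈ Ae, algebraMap k₀ k (L i m) * coeff m (G a) = 0 := by
      intro i
      have h5 := (hT.slow (fun m : Ae => fun a => coeff (m : Fin (N + 1) →₀ ℕ) (G a)) (fun m => hGs m)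
        (∑ m : Ae, C (algebraMap k₀ k (L i m)) * X m)).1 (by
          rw [map_sum, ← h3 i, ← Finset.sum_coe_sort Ae]
          refine Finset.sum_congr rfl fun m _ => ?_
          rw [map_mul, aeval_C, aeval_X, ← IsScalarTower.algebraMap_apply k₀ k k', hcf m m.2])
      filter_upwards [h5] with a ha
      rw [map_sum] at ha
      rw [← Finset.sum_coe_sort Ae, ← ha]
      refine Finset.sum_congr rfl fun m _ => ?_
      rw [map_mul, aeval_C, aeval_X]
      rfl
    obtain ⟨a, ha⟩ := (eventually_all.2 h4).exists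
    exact hGI a ((hL k (G a) (hGh a)).2 ha)
  have hG'ξ : aeval ξ G' = 0 := by
    have h3 := (hT.gen (fun m : Ae => fun a => coeff (m : Fin (N + 1) →₀ ℕ) (G a)) (fun m => hGs m)
      (∑ m : Ae, X (Sum.inl m) * ∏ j, X (Sum.inr j) ^ (m : Fin (N + 1) →₀ ℕ) j)).2 (by
        filter_upwards [hG0] with a ha
        rw [map_sum]
        have h4 : aeval (x (φ a)) (G a) = ∑ m ∈ Ae, algebraMap k (AlgebraicClosure k) (coeff m (G a)) * ∏ j, x (φ a) j ^ m j := by
          rw [aeval_def, eval₂_eq']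
          refine Finset.sum_subset ?_ ?_
          · intro m hm
            exact hmem m (by
              have := hGh a (mem_support_iff.1 hm)
              rw [Finsupp.degree_eq_weight_one]
              exact this)
          · intro m _ hm
            rw [notMem_support_iff.1 hm, map_zero, zero_mul]
        rw [← ha, h4, ← Finset.sum_coe_sort Ae]
        refine Finset.sum_congr rfl fun m _ => ?_
        simp only [map_mul, map_prod, map_pow, aeval_X, Sum.elim_inl, Sum.elim_inr])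
    rw [map_sum] at h3
    rw [hG', map_sum, ← h3, ← Finset.sum_coe_sort Ae]
    refine Finset.sum_congr rfl fun m _ => ?_
    simp only [map_mul, map_prod, map_pow, aeval_X, Sum.elim_inl, Sum.elim_inr, aeval_monomial]
    rw [Finsupp.prod_fintype _ _ fun i => pow_zero _]
  have hC : Crv (Submodule.span k' (Set.range ξ)) := crv_s hX ξ hξ1 hξg hξt hon G' hG'I ⟨e, hG'h⟩ hG'ξ
  have : FiniteDimensional k' (Submodule.span k' (Set.range ξ)) := FiniteDimensional.span_of_finite k' (Set.finite_range ξ)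
  have hLV : ∀ i, lv (fun j => γ fun a => l (φ a) i j) ξ ∈ Submodule.span k' (Set.range ξ) := by
    intro i
    unfold lv
    refine Submodule.sum_mem _ fun j _ => ?_
    rw [← Algebra.smul_def]
    exact Submodule.smul_mem _ _ (Submodule.subset_span (Set.mem_range_self j))
  obtain ⟨p, M, hp, hM, hrel⟩ := curve_alg hC hdat (fun i => lv (fun j => γ fun a => l (φ a) i j) ξ) hLV hlξ hI2
  obtain ⟨e1, e2, g, z₁, z₂, hz1, hz2, hz3, hz4, hz5, hz6, hz7⟩ := hgeo k' (fun i j => γ fun a => l (φ a) i j) hl2 E ξ hξ1 hξt hon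
    hlξ p M (by omega) hM hrel
  exact ⟨e1, e2, φ, k', E, iF', iF, iA1, iA2, iA3, iT, γ, ξ, g, z₁, z₂, hT, hsl, hz1, hz2, hz3, hz4, hz5, hz6, hz7⟩

end Pool.Agent.TRI
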