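import Pool.Agent.Helper6.TRI.GDefs
import Pool.Agent.Helper42.SQ.GDefs2

/-!
# TRI, second version: definitions
-/

set_option autoImplicit false

namespace Pool.Agent.TRI

open Module MvPolynomial NumberField Filter
open Pool.Agent.Helper64.Vojta (Pl nv sn above)
open Pool.Agent.Chart (fld dg crd hgt val lam)

universe u

/-- a sequence of hyperplanes and points outside them: degree at most `r`, every form has a coefficient equal to a constant, the proximity
is almost maximal (so `h(l) = o(h(x))`, `h(x) → ∞`) -/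
structure BadS {k : Type u} [Field k] [NumberField k] {N q : ℕ} (r : ℕ) (S : Finset (Pl k)) (l : ℕ → Fin q → Fin (N + 1) → k)
    (x : ℕ → Fin (N + 1) → AlgebraicClosure k) : Prop where
  one : ∀ a, ∃ j, x a j = 1
  nrm : ∃ t : Fin q → k, (∀ i, t i ≠ 0) ∧ ∀ a i, ∃ j, l a i j = t i
  deg : ∀ a, dg (x a) ≤ r
  out : ∀ a i, val (l a i) (x a) ≠ 0
  big : ∀ a : ℕ, (q - 1 / ((a : ℝ) + 1)) * hgt (x a) + a * (1 + ∑ i, Height.logHeight (l a i)) < ∑ ν ∈ S, ∑ i, lam (l a i) ν (x a)

/-- a sequence of elements of `k` of height `o(h(x))` -/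
def SlowS {k : Type u} [Field k] [NumberField k] {N : ℕ} (x : ℕ → Fin N → AlgebraicClosure k) (b : ℕ → k) : Prop :=
  ∀ η : ℝ, 0 < η → ∀ᶠ a in (hyperfilter ℕ : Filter ℕ), Height.logHeight₁ (b a) ≤ η * hgt (x a)

end Pool.Agent.TRI
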