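import Pool.Agent.Helper42.SQ.Defs

/-!
# TRI: definitions

Integral points of bounded degree on the complement of generic lines in the plane; see `h6_TRI.md` in the team store.
-/

set_option autoImplicit false

namespace Pool.Agent.TRI

open Module Pool.Agent.SQ

section

variable {k : Type*} {E : Type*} [Field k] [Field E] [Algebra k E]

/-- `ω` is trivial -/
def Triv (ω : E → ℝ) : Prop := ∀ x, x ≠ 0 → ω x = 0

/-- `ω'` is a positive multiple of `ω` -/
def Prp (ω ω' : E → ℝ) : Prop := ∃ c : ℝ, 0 < c ∧ ∀ x, x ≠ 0 → ω' x = c * ω x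

/-- the residues of the `u i` are linearly independent over `k` -/
def RI (k : Type*) {E : Type*} [Field k] [Field E] [Algebra k E] (ω : E → ℝ) {f : ℕ} (u : Fin f → E) : Prop :=
  ∀ c : Fin f → k, c ≠ 0 → ∑ i, c i • u i ≠ 0 ∧ ω (∑ i, c i • u i) = 0

/-- a discrete valuation, trivial on `k`, with group of values `γ ℤ` and residue field of degree `f` over `k` -/
structure DVal (k : Type*) {E : Type*} [Field k] [Field E] [Algebra k E] (ω : E → ℝ) (γ : ℝ) (f : ℕ) : Prop where
  rv : RV k ω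
  γ0 : 0 < γ
  f0 : 0 < f
  dvd : ∀ x, x ≠ 0 → ∃ n : ℤ, ω x = n * γ
  ex : ∃ x, x ≠ 0 ∧ ω x = γ
  res : ∃ u : Fin f → E, RI k ω u
  max : ∀ (f' : ℕ) (u : Fin f' → E), RI k ω u → f' ≤ f

/-- `E` is the function field of a curve, generated by `V` -/
structure Crv {k E : Type*} [Field k] [Field E] [Algebra k E] (V : Submodule k E) : Prop where
  one : (1 : E) ∈ V
  gen : IntermediateField.adjoin k (V : Set E) = ⊤
  tr : ∃ x ∈ V, Transcendental k x
  alg : ∀ x y : E, Transcendental k x → IsAlgebraic (IntermediateField.adjoin k {x}) y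

/-- the slopes of the linear lower bounds of the growth of `V ^ m` -/
def Gr {k E : Type*} [Field k] [Field E] [Algebra k E] (V : Submodule k E) : Set ℝ :=
  {T | ∃ C : ℝ, ∀ m : ℕ, T * m ≤ finrank k ↥(V ^ m) + C}

/-- the value of the linear form `l` -/
def lv {k E : Type*} [Field k] [Field E] [Algebra k E] {N : ℕ} (l : Fin N → k) (x : Fin N → E) : E :=
  ∑ j, algebraMap k E (l j) * x j

end

/-- the data of a sequence of points: finitely many valuations, the sizes of the point, the height `h` -/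
structure Dat {k E : Type*} [Field k] [Field E] [Algebra k E] (V : Submodule k E) {A : Type*} [Fintype A]
    (ω : A → E → ℝ) (c : A → ℝ) (r : ℕ) (h : ℝ) : Prop where
  r0 : 0 < r
  h0 : 0 < h
  rv : ∀ α, RV k (ω α)
  ge : ∀ α, ∀ x ∈ V, x ≠ 0 → 0 ≤ ω α x + c α
  eq : ∀ α, ∃ x ∈ V, x ≠ 0 ∧ ω α x + c α = 0
  /-- Liouville -/
  I1 : ∀ m : ℕ, ∀ x ∈ V ^ m, x ≠ 0 → ∑ α, (ω α x + m * c α) ≤ m * h
  /-- Schmidt -/
  I3 : ∀ m : ℕ, 0 < m → ∀ (n : A → ℕ) (z : ∀ α, Fin (n α) → E), (∀ α, LinearIndependent k (z α)) →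
    (∀ α i, z α i ∈ V ^ m) → ∀ B : A → ℝ, (∀ α, 0 ≤ B α) →
    ∑ α, (∑ i, min (B α) (ω α (z α i) + m * c α) - (1 - 1 / (r : ℝ)) * B α * finrank k ↥(V ^ m)) ≤
      finrank k ↥(V ^ m) * m * h / r

/-- `κ` is algebraically closed in `E` -/
def AC {k E : Type*} [Field k] [Field E] [Algebra k E] (κ : IntermediateField k E) : Prop := ∀ x : E, IsAlgebraic κ x → x ∈ κ

/-- cross product -/
def cr {K : Type*} [CommRing K] (u v : Fin 3 → K) : Fin 3 → K :=
  ![u 1 * v 2 - u 2 * v 1, u 2 * v 0 - u 0 * v 2, u 0 * v 1 - u 1 * v 0]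

/-- determinant -/
def dt {K : Type*} [CommRing K] (u v w : Fin 3 → K) : K := ∑ j, u j * cr v w j

/-- the line through the intersection of the lines `l i`, `l j` and that of `l m`, `l n` -/
def Sp {K : Type*} [CommRing K] {q : ℕ} (l : Fin q → Fin 3 → K) (i j m n : Fin q) : Fin 3 → K :=
  cr (cr (l i) (l j)) (cr (l m) (l n))

end Pool.Agent.TRI
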