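import Pool.Agent.Helper67.TRI.Arith
import Pool.Agent.Helper42.TRI.Curve
import Pool.Agent.Helper17.TRI.G12
import Pool.Agent.Helper17.TRI.G13
import Pool.Agent.Helper12.TRI.F1
import Pool.Agent.Helper42.TRI.Geo

/-!
# TRI, the assembly
-/

set_option autoImplicit false

namespace Pool.Agent.TRI

open Module MvPolynomial
open Pool.Agent.Helper64.Vojta (Pl nv sn above)
open Pool.Agent.Chart (fld dg crd hgt val lam)

universe u

/-- the points: integral points of degree at most `r` of `X` outside the sections -/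
def Pts {k₀ k : Type u} [Field k₀] [NumberField k₀] [Field k] [NumberField k] [Algebra k₀ k] {N q : ℕ}
    (I : Ideal (MvPolynomial (Fin (N + 1)) k₀)) (r : ℕ) (l : Fin q → Fin (N + 1) → k) (S : Finset (Pl k)) (C : ℝ) :
    Set (Fin (N + 1) → AlgebraicClosure k) :=
  {x | (∃ j, x j = 1) ∧ OnX I x ∧ dg x ≤ r ∧ (∀ i, val (l i) x ≠ 0) ∧ q * hgt x - C ≤ ∑ ν ∈ S, ∑ i, lam (l i) ν x}

private theorem aeval_val6 {k : Type u} [Field k] [NumberField k] {N : ℕ} (m : Fin (N + 1) → k)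
    (x : Fin (N + 1) → AlgebraicClosure k) :
    aeval x (∑ j, C (m j) * X j : MvPolynomial (Fin (N + 1)) k) = (val m x : AlgebraicClosure k) := by
  rw [map_sum]
  unfold val
  rw [AddSubmonoidClass.coe_finsetSum]
  refine Finset.sum_congr rfl fun j _ => ?_
  rw [map_mul, aeval_C, aeval_X]
  rfl

private theorem aeval_lv6 {k E : Type u} [Field k] [Field E] [Algebra k E] {N : ℕ} (m : Fin (N + 1) → k) (ξ : Fin (N + 1) → E) :
    aeval ξ (∑ j, C (m j) * X j : MvPolynomial (Fin (N + 1)) k) = lv m ξ := by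
  rw [map_sum]
  unfold lv
  refine Finset.sum_congr rfl fun j _ => ?_
  rw [map_mul, aeval_C, aeval_X]

/-- every sequence of points has a limit on a line through two nodes, in a plane, and `q = 2 r + 2` -/
theorem seq_end {k₀ : Type u} [Field k₀] [NumberField k₀] {N q r : ℕ} (hq : 2 * r + 2 ≤ q)
    {I : Ideal (MvPolynomial (Fin (N + 1)) k₀)} (hX : Surf I) :
    ∃ Φ : MvPolynomial (Fin q × Fin (N + 1)) k₀, Φ ≠ 0 ∧
      ∀ (k : Type u) [Field k] [NumberField k] [Algebra k₀ k] (l : Fin q → Fin (N + 1) → k),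
      aeval (fun p : Fin q × Fin (N + 1) => l p.1 p.2) Φ ≠ 0 → ∀ (S : Finset (Pl k)) (C : ℝ)
      (x : ℕ → Fin (N + 1) → AlgebraicClosure k), Function.Injective x → (∀ a, x a ∈ Pts I r l S C) →
      q = 2 * r + 2 ∧ Plane I ∧ ∃ (E : Type u) (_ : Field E) (_ : Algebra k E) (ξ : Fin (N + 1) → E) (g : Fin 4 → Fin q)
        (z₁ z₂ : Fin (N + 1) → E), (∀ f : MvPolynomial (Fin (N + 1)) k, aeval ξ f = 0 → {a | aeval (x a) f = 0}.Infinite) ∧
        Function.Injective g ∧ LinearIndependent E ![z₁, z₂] ∧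
        lv (l (g 0)) z₁ = 0 ∧ lv (l (g 1)) z₁ = 0 ∧ lv (l (g 2)) z₂ = 0 ∧ lv (l (g 3)) z₂ = 0 ∧
        ∃ s t : E, ∀ j, ξ j = s * z₁ j + t * z₂ j := by
  obtain ⟨Φ₁, h1, hnd⟩ := nondense (r := r) hq hX
  obtain ⟨Φ₂, h2, hgeo⟩ := geo (r := r) hX hq
  refine ⟨Φ₁ * Φ₂, mul_ne_zero h1 h2, ?_⟩
  intro k _ _ _ l hl S C x hx hP
  rw [map_mul] at hl
  have hl1 := left_ne_zero_of_mul hl
  have hl2 := right_ne_zero_of_mul hl
  obtain ⟨Q, hQ, hQh, hQx⟩ := hnd k l hl1 S C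
  obtain ⟨E, iF, iA, ξ, r', A, iT, ω, c, h, hr', hξ1, hξg, hξt, htr, hdat, hlξ, hI2⟩ :=
    arith (r := r) l S C x hx (fun a => (hP a).1) (fun a => (hP a).2.2.1) (fun a => (hP a).2.2.2.1) (fun a => (hP a).2.2.2.2)
  let _ : Algebra k₀ E := ((algebraMap k E).comp (algebraMap k₀ k)).toAlgebra
  have : IsScalarTower k₀ k E := IsScalarTower.of_algebraMap_eq fun _ => rfl
  have hmap : ∀ {K : Type u} [Field K] [Algebra k K] [Algebra k₀ K] [IsScalarTower k₀ k K] (y : Fin (N + 1) → K)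
      (g : MvPolynomial (Fin (N + 1)) k₀), aeval y (MvPolynomial.map (algebraMap k₀ k) g) = aeval y g := by
    intro K _ _ _ _ y g
    exact aeval_map_algebraMap k y g
  have hon : OnX I ξ := by
    intro g hg
    have := (htr (MvPolynomial.map (algebraMap k₀ k) g)).2 (fun a => by rw [hmap]; exact (hP a).2.1 g hg)
    rwa [hmap] at this
  have hQξ : aeval ξ Q = 0 := by
    have := (htr (MvPolynomial.map (algebraMap k₀ k) Q)).2 (fun a => by
      rw [hmap]
      exact hQx (x a) (hP a).1 (hP a).2.1 (hP a).2.2.1 (hP a).2.2.2.1 (hP a).2.2.2.2)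
    rwa [hmap] at this
  have : CharZero k := inferInstance
  have : CharZero k₀ := inferInstance
  have : Algebra.IsAlgebraic k₀ k := by
    have : IsScalarTower ℚ k₀ k := inferInstance
    have : FiniteDimensional k₀ k := Module.Finite.of_restrictScalars_finite ℚ k₀ k
    exact Algebra.IsAlgebraic.of_finite k₀ k
  have hC : Crv (Submodule.span k (Set.range ξ)) := crv_of hX ξ hξ1 hξg hξt hon Q hQ hQh hQξ
  have : FiniteDimensional k (Submodule.span k (Set.range ξ)) := FiniteDimensional.span_of_finite k (Set.finite_range ξ)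
  have hLV : ∀ i, lv (l i) ξ ∈ Submodule.span k (Set.range ξ) := by
    intro i
    unfold lv
    refine Submodule.sum_mem _ fun j _ => ?_
    rw [← Algebra.smul_def]
    exact Submodule.smul_mem _ _ (Submodule.subset_span (Set.mem_range_self j))
  obtain ⟨p, M, hp, hM, hrel⟩ := curve_alg hC hdat (fun i => lv (l i) ξ) hLV hlξ hI2
  obtain ⟨e1, e2, g, z₁, z₂, hz⟩ := hgeo k l hl2 E ξ hξ1 hξt hon hlξ p M (by omega) hM hrel
  exact ⟨e1, e2, E, iF, iA, ξ, g, z₁, z₂, fun f hf => (htr f).1 hf, hz⟩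

/-- finiteness -/
theorem fin_surf {k₀ : Type u} [Field k₀] [NumberField k₀] {N q r : ℕ} (hq : 2 * r + 2 ≤ q)
    {I : Ideal (MvPolynomial (Fin (N + 1)) k₀)} (hX : Surf I) (h : 2 * r + 3 ≤ q ∨ ¬ Plane I) :
    ∃ Φ : MvPolynomial (Fin q × Fin (N + 1)) k₀, Φ ≠ 0 ∧
      ∀ (k : Type u) [Field k] [NumberField k] [Algebra k₀ k] (l : Fin q → Fin (N + 1) → k),
      aeval (fun p : Fin q × Fin (N + 1) => l p.1 p.2) Φ ≠ 0 → ∀ (S : Finset (Pl k)) (C : ℝ), (Pts I r l S C).Finite := by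
  obtain ⟨Φ, hΦ, hend⟩ := seq_end (r := r) hq hX
  refine ⟨Φ, hΦ, fun k _ _ _ l hl S C => ?_⟩
  by_contra hinf
  have hinf' : (Pts I r l S C).Infinite := hinf
  obtain ⟨e1, e2, -⟩ := hend k l hl S C (fun a => (hinf'.natEmbedding _ a : Fin (N + 1) → AlgebraicClosure k))
    (fun a b hab => (hinf'.natEmbedding _).injective (Subtype.ext hab)) (fun a => (hinf'.natEmbedding _ a).2)
  rcases h with h | h
  · omega
  · exact h e2

/-- the plane -/
theorem fin_plane {k₀ : Type u} [Field k₀] [NumberField k₀] {q r : ℕ} (hq : 2 * r + 2 ≤ q) :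
    ∃ Φ : MvPolynomial (Fin q × Fin (2 + 1)) k₀, Φ ≠ 0 ∧
      ∀ (k : Type u) [Field k] [NumberField k] [Algebra k₀ k] (l : Fin q → Fin (2 + 1) → k),
      aeval (fun p : Fin q × Fin (2 + 1) => l p.1 p.2) Φ ≠ 0 → ∀ (S : Finset (Pl k)) (C : ℝ),
        (Pts (⊥ : Ideal (MvPolynomial (Fin (2 + 1)) k₀)) r l S C ∩ {x | ∀ g : Fin 4 → Fin q, Function.Injective g →
          val (Sp l (g 0) (g 1) (g 2) (g 3)) x ≠ 0}).Finite := by
  obtain ⟨Φ, hΦ, hend⟩ := seq_end (r := r) hq (surf_plane k₀)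
  refine ⟨Φ, hΦ, fun k _ _ _ l hl S C => ?_⟩
  by_contra hinf
  have hinf' : (Pts (⊥ : Ideal (MvPolynomial (Fin (2 + 1)) k₀)) r l S C ∩ {x | ∀ g : Fin 4 → Fin q, Function.Injective g →
          val (Sp l (g 0) (g 1) (g 2) (g 3)) x ≠ 0}).Infinite := hinf
  obtain ⟨e1, e2, E, iF, iA, ξ, g, z₁, z₂, htr, hg, hz, h0, h1, h2, h3, s, t, hst⟩ :=
    hend k l hl S C (fun a => (hinf'.natEmbedding _ a : Fin (2 + 1) → AlgebraicClosure k))
      (fun a b hab => (hinf'.natEmbedding _).injective (Subtype.ext hab)) (fun a => (hinf'.natEmbedding _ a).2.1)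
  have h4 := plane_end l ξ g z₁ z₂ hz h0 h1 h2 h3 s t hst
  have h5 := htr (∑ j, MvPolynomial.C (Sp l (g 0) (g 1) (g 2) (g 3) j) * X j) (by rw [aeval_lv6]; exact h4)
  obtain ⟨a, ha⟩ := h5.nonempty
  have h6 := (hinf'.natEmbedding _ a).2.2 g hg
  apply h6
  have h7 : aeval (hinf'.natEmbedding _ a : Fin (2 + 1) → AlgebraicClosure k)
    (∑ j, MvPolynomial.C (Sp l (g 0) (g 1) (g 2) (g 3) j) * X j : MvPolynomial (Fin (2 + 1)) k) = 0 := ha
  rw [aeval_val6] at h7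
  exact ZeroMemClass.coe_eq_zero.1 h7

end Pool.Agent.TRI
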