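import Pool.Agent.Helper6.TRI.FinS

/-!
# TRI, second version: from sequences to the inequality
-/

set_option autoImplicit false

namespace Pool.Agent.TRI

open Module MvPolynomial NumberField Filter
open Pool.Agent.Helper64.Vojta (Pl nv sn above)
open Pool.Agent.Chart (fld dg crd hgt val lam)

universe u

private theorem val_smul6 {k : Type u} [Field k] [NumberField k] {N : ℕ} (l : Fin (N + 1) → k) (c : k)
    (x : Fin (N + 1) → AlgebraicClosure k) : val (fun j => c * l j) x = algebraMap k (fld x) c * val l x := by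
  unfold val
  rw [Finset.mul_sum]
  exact Finset.sum_congr rfl fun j _ => by rw [map_mul, mul_assoc]

theorem ineq_of {k₀ : Type u} [Field k₀] [NumberField k₀] {N q r : ℕ}
    (P : ∀ (k : Type u) [Field k] [NumberField k] [Algebra k₀ k], (Fin q → Fin (N + 1) → k) → (Fin (N + 1) → AlgebraicClosure k) → Prop)
    (hP : ∀ (k : Type u) [Field k] [NumberField k] [Algebra k₀ k] (l : Fin q → Fin (N + 1) → k) (x : Fin (N + 1) → AlgebraicClosure k)
      (c : Fin q → k), (∀ i, c i ≠ 0) → P k l x → P k (fun i j => c i * l i j) x)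
    (Φ₀ : MvPolynomial (Fin q × Fin (N + 1)) k₀) (h0 : Φ₀ ≠ 0)
    (hno : ∀ (k : Type u) [Field k] [NumberField k] [Algebra k₀ k] (S : Finset (Pl k)) (l : ℕ → Fin q → Fin (N + 1) → k)
      (x : ℕ → Fin (N + 1) → AlgebraicClosure k), (∀ a, aeval (fun p : Fin q × Fin (N + 1) => l a p.1 p.2) Φ₀ ≠ 0) →
      (∀ a, P k (l a) (x a)) → ¬ BadS r S l x) :
    ∃ Φ : MvPolynomial (Fin q × Fin (N + 1)) k₀, Φ ≠ 0 ∧
      ∀ (k : Type u) [Field k] [NumberField k] [Algebra k₀ k] (S : Finset (Pl k)), ∃ δ C : ℝ, 0 < δ ∧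
      ∀ l : Fin q → Fin (N + 1) → k, aeval (fun p : Fin q × Fin (N + 1) => l p.1 p.2) Φ ≠ 0 →
      ∀ x : Fin (N + 1) → AlgebraicClosure k, (∃ j, x j = 1) → dg x ≤ r → (∀ i, val (l i) x ≠ 0) → P k l x →
        ∑ ν ∈ S, ∑ i, lamN (l i) ν x ≤ (q - δ) * hgt x + C * (1 + ∑ i, Height.logHeight (l i)) := by
  classical
  obtain ⟨Φ, T, hΦ, hT, hsc⟩ := scal Φ₀ h0
  refine ⟨Φ, hΦ, fun k _ _ _ S => ?_⟩
  by_contra hcon
  push Not at hcon
  choose l hl x hx1 hxr hxl hxP hbig using fun m : ℕ => hcon (1 / ((m : ℝ) + 1)) m (by positivity)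
  -- a coordinate of each form
  have hj : ∀ m i, ∃ j, l m i j ≠ 0 := by
    intro m i
    by_contra h
    push Not at h
    apply hxl m i
    unfold val
    exact Finset.sum_eq_zero fun j _ => by rw [h j, map_zero, zero_mul]
  choose J hJ using hj
  set c : ℕ → Fin q → k := fun m i => (l m i (J m i))⁻¹ with hc
  have hc0 : ∀ m i, c m i ≠ 0 := fun m i => inv_ne_zero (hJ m i)
  have ht : ∀ m, ∃ t ∈ T, aeval (fun p : Fin q × Fin (N + 1) => (t p.1 : k) * (c m p.1 * l m p.1 p.2)) Φ₀ ≠ 0 := by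
    intro m
    have h1 := (hsc k (l m) (hl m)).1 (c m) (hc0 m)
    exact (hsc k (fun i j => c m i * l m i j) h1).2
  choose t htT ht0 using ht
  -- pigeonhole
  obtain ⟨t₀, ht₀, hfr⟩ : ∃ t₀ ∈ T, ∃ᶠ m in atTop, t m = t₀ := by
    by_contra h
    push Not at h
    have h1 : ∀ t₀ ∈ T, ∀ᶠ m in atTop, t m ≠ t₀ := h
    have h2 : ∀ᶠ m in atTop, ∀ t₀ ∈ T, t m ≠ t₀ := by
      rw [Filter.eventually_all_finset]
      exact h1
    obtain ⟨m, hm⟩ := h2.exists
    exact hm (t m) (htT m) rfl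
  obtain ⟨ψ, hψ, hψt⟩ := Filter.extraction_of_frequently_atTop hfr
  have htk : ∀ i, (t₀ i : k) ≠ 0 := fun i => Nat.cast_ne_zero.2 (hT t₀ ht₀ i)
  choose B hB using fun i => lamN_le (N := N) S (t₀ i : k) (htk i)
  set B0 : ℝ := ∑ i, |B i| with hB0
  have hB00 : 0 ≤ B0 := Finset.sum_nonneg fun i _ => abs_nonneg _
  obtain ⟨K, hK⟩ := exists_nat_gt (1 + B0)
  set m : ℕ → ℕ := fun a => ψ (a + K) with hm
  have hma : ∀ a, a + K ≤ m a := fun a => hψ.le_apply
  set l' : ℕ → Fin q → Fin (N + 1) → k := fun a i j => (t₀ i : k) * (c (m a) i * l (m a) i j) with hl'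
  have hl'' : ∀ a, l' a = fun i j => ((t₀ i : k) * c (m a) i) * l (m a) i j := by
    intro a
    funext i j
    rw [hl', mul_assoc]
  have hd0 : ∀ a i, (t₀ i : k) * c (m a) i ≠ 0 := fun a i => mul_ne_zero (htk i) (hc0 _ i)
  refine hno k S l' (fun a => x (m a)) ?_ ?_ ?_
  · intro a
    have h1 := ht0 (m a)
    rw [hψt (a + K)] at h1
    exact h1
  · intro a
    rw [hl'']
    exact hP k (l (m a)) (x (m a)) (fun i => (t₀ i : k) * c (m a) i) (hd0 a) (hxP (m a))
  have hval : ∀ a i, val (l' a i) (x (m a)) ≠ 0 := by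
    intro a i
    rw [hl'']
    show val (fun j => ((t₀ i : k) * c (m a) i) * l (m a) i j) (x (m a)) ≠ 0
    rw [val_smul6]
    exact mul_ne_zero ((map_ne_zero _).2 (hd0 a i)) (hxl _ i)
  have hnrm : ∀ a i, ∃ j, l' a i j = t₀ i := by
    intro a i
    refine ⟨J (m a) i, ?_⟩
    show (t₀ i : k) * ((l (m a) i (J (m a) i))⁻¹ * l (m a) i (J (m a) i)) = t₀ i
    rw [inv_mul_cancel₀ (hJ _ i), mul_one]
  have hht : ∀ a i, Height.logHeight (l' a i) = Height.logHeight (l (m a) i) := by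
    intro a i
    rw [hl'']
    exact Height.logHeight_smul_eq_logHeight (l (m a) i) (hd0 a i)
  refine ⟨fun a => hx1 _, ⟨fun i => t₀ i, htk, hnrm⟩, fun a => hxr _, hval, fun a => ?_⟩
  have h1 := hbig (m a)
  have h2 : ∑ ν ∈ S, ∑ i, lamN (l (m a) i) ν (x (m a)) ≤ ∑ i, (Height.logHeight (l' a i) + B i) +
      ∑ ν ∈ S, ∑ i, lam (l' a i) ν (x (m a)) := by
    rw [Finset.sum_comm, Finset.sum_comm (s := S) (t := Finset.univ) (f := fun ν i => lam (l' a i) ν (x (m a))),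
      ← Finset.sum_add_distrib]
    refine Finset.sum_le_sum fun i _ => ?_
    refine le_trans (le_of_eq ?_) (hB i (l' a i) (hnrm a i) (x (m a)))
    refine Finset.sum_congr rfl fun ν _ => ?_
    rw [hl'']
    exact (lamN_smul (l (m a) i) _ (hd0 a i) ν (x (m a)) (hxl _ i)).symm
  rw [Finset.sum_add_distrib] at h2
  have h3 : ∑ i, B i ≤ B0 := Finset.sum_le_sum fun i _ => le_abs_self _
  have h4 : ∑ i, Height.logHeight (l' a i) = ∑ i, Height.logHeight (l (m a) i) := Finset.sum_congr rfl fun i _ => hht a i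
  have h5 : (0 : ℝ) ≤ ∑ i, Height.logHeight (l (m a) i) := Finset.sum_nonneg fun i _ => Height.logHeight_nonneg _
  have h6 : (a : ℝ) + K ≤ m a := by exact_mod_cast hma a
  have h7 : 1 / ((m a : ℝ) + 1) ≤ 1 / ((a : ℝ) + 1) := by
    apply one_div_le_one_div_of_le
    · positivity
    · have : (0 : ℝ) ≤ K := Nat.cast_nonneg _
      linarith
  have h8 : 0 ≤ hgt (x (m a)) := by
    unfold hgt
    exact div_nonneg (Height.logHeight_nonneg _) (Nat.cast_nonneg _)
  have h9 := mul_le_mul_of_nonneg_right h7 h8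
  rw [h4] at h2 ⊢
  set Hh := hgt (x (m a))
  set L := ∑ i, Height.logHeight (l (m a) i)
  have h10 : ((a : ℝ) + 1 + B0) * (1 + L) ≤ m a * (1 + L) := mul_le_mul_of_nonneg_right (by linarith) (by linarith)
  have h11 : B0 ≤ B0 * (1 + L) := le_mul_of_one_le_right hB00 (by linarith)
  have h12 : ((q : ℝ) - 1 / ((m a : ℝ) + 1)) * Hh = q * Hh - 1 / ((m a : ℝ) + 1) * Hh := by ring
  have h13 : ((q : ℝ) - 1 / ((a : ℝ) + 1)) * Hh = q * Hh - 1 / ((a : ℝ) + 1) * Hh := by ring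
  rw [h12] at h1
  rw [h13]
  nlinarith

/-- the inequality on surfaces -/
theorem ineq_surf {k₀ : Type u} [Field k₀] [NumberField k₀] {N q r : ℕ} (hq : 2 * r + 2 ≤ q)
    {I : Ideal (MvPolynomial (Fin (N + 1)) k₀)} (hX : Surf I) (h : 2 * r + 3 ≤ q ∨ ¬ Plane I) :
    ∃ Φ : MvPolynomial (Fin q × Fin (N + 1)) k₀, Φ ≠ 0 ∧
      ∀ (k : Type u) [Field k] [NumberField k] [Algebra k₀ k] (S : Finset (Pl k)), ∃ δ C : ℝ, 0 < δ ∧
      ∀ l : Fin q → Fin (N + 1) → k, aeval (fun p : Fin q × Fin (N + 1) => l p.1 p.2) Φ ≠ 0 →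
      ∀ x : Fin (N + 1) → AlgebraicClosure k, (∃ j, x j = 1) → dg x ≤ r → (∀ i, val (l i) x ≠ 0) → OnX I x →
        ∑ ν ∈ S, ∑ i, lamN (l i) ν x ≤ (q - δ) * hgt x + C * (1 + ∑ i, Height.logHeight (l i)) := by
  obtain ⟨Φ₀, h0, hend⟩ := seq_s (r := r) hq hX
  refine ineq_of (fun k _ _ _ l x => OnX I x) (fun k _ _ _ l x c _ h => h) Φ₀ h0 ?_
  intro k _ _ _ S l x hl hx hb
  obtain ⟨e1, e2, -⟩ := hend k S l x hl hx hb
  rcases h with h | h
  · omega
  · exact h e2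

private theorem cr_map6 {R R' : Type*} [CommRing R] [CommRing R'] (f : R →+* R') (u v : Fin 3 → R) (c : Fin 3) :
    f (cr u v c) = cr (fun j => f (u j)) (fun j => f (v j)) c := by
  fin_cases c <;> simp [cr]

private theorem sp_map6 {R R' : Type*} [CommRing R] [CommRing R'] {q : ℕ} (f : R →+* R') (l : Fin q → Fin 3 → R) (i j m n : Fin q)
    (c : Fin 3) : f (Sp l i j m n c) = Sp (fun i j => f (l i j)) i j m n c := by
  unfold Sp
  rw [cr_map6]
  simp only [cr_map6]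

private theorem cr_smul6 {R : Type*} [CommRing R] (a b : R) (u v : Fin 3 → R) (c : Fin 3) :
    cr (fun j => a * u j) (fun j => b * v j) c = a * b * cr u v c := by
  fin_cases c <;> simp [cr] <;> ring

private theorem sp_smul6 {R : Type*} [CommRing R] {q : ℕ} (a : Fin q → R) (l : Fin q → Fin 3 → R) (i j m n : Fin q) (c : Fin 3) :
    Sp (fun i j => a i * l i j) i j m n c = (a i * a j) * (a m * a n) * Sp l i j m n c := by
  have h1 : ∀ i j, cr (fun c => a i * l i c) (fun c => a j * l j c) = fun c => (a i * a j) * cr (l i) (l j) c :=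
    fun i j => funext fun c => cr_smul6 _ _ _ _ _
  show cr (cr (fun c => a i * l i c) (fun c => a j * l j c)) (cr (fun c => a m * l m c) (fun c => a n * l n c)) c = _
  rw [h1, h1, cr_smul6]
  rfl

/-- the inequality on the plane -/
theorem ineq_plane {k₀ : Type u} [Field k₀] [NumberField k₀] {q r : ℕ} (hq : 2 * r + 2 ≤ q) :
    ∃ Φ : MvPolynomial (Fin q × Fin (2 + 1)) k₀, Φ ≠ 0 ∧
      ∀ (k : Type u) [Field k] [NumberField k] [Algebra k₀ k] (S : Finset (Pl k)), ∃ δ C : ℝ, 0 < δ ∧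
      ∀ l : Fin q → Fin (2 + 1) → k, aeval (fun p : Fin q × Fin (2 + 1) => l p.1 p.2) Φ ≠ 0 →
      ∀ x : Fin (2 + 1) → AlgebraicClosure k, (∃ j, x j = 1) → dg x ≤ r → (∀ i, val (l i) x ≠ 0) →
        (∀ g : Fin 4 → Fin q, Function.Injective g → val (Sp l (g 0) (g 1) (g 2) (g 3)) x ≠ 0) →
        ∑ ν ∈ S, ∑ i, lamN (l i) ν x ≤ (q - δ) * hgt x + C * (1 + ∑ i, Height.logHeight (l i)) := by
  obtain ⟨Φ₀, h0, hend⟩ := seq_s (r := r) hq (surf_plane k₀)
  refine ineq_of (fun k _ _ _ l x => ∀ g : Fin 4 → Fin q, Function.Injective g → val (Sp l (g 0) (g 1) (g 2) (g 3)) x ≠ 0) ?_ Φ₀ h0 ?_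
  · intro k _ _ _ l x c hc h g hg
    have h1 : Sp (fun i j => c i * l i j) (g 0) (g 1) (g 2) (g 3) =
        fun j => ((c (g 0) * c (g 1)) * (c (g 2) * c (g 3))) * Sp l (g 0) (g 1) (g 2) (g 3) j :=
      funext fun j => sp_smul6 c l _ _ _ _ j
    rw [h1, val_smul6]
    exact mul_ne_zero ((map_ne_zero _).2 (mul_ne_zero (mul_ne_zero (hc _) (hc _)) (mul_ne_zero (hc _) (hc _)))) (h g hg)
  · intro k _ _ _ S l x hl hx hb
    obtain ⟨e1, e2, φ, k', E, iF', iF, iA1, iA2, iA3, iT, γ, ξ, g, z₁, z₂, hT, hsl, hg, hz, h0, h1, h2, h3, s, t, hst⟩ :=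
      hend k S l x hl (fun a g hg => by
        rw [Ideal.mem_bot] at hg
        rw [hg, map_zero]) hb
    have h4 := plane_end (fun i j => γ fun a => l (φ a) i j) ξ g z₁ z₂ hz h0 h1 h2 h3 s t hst
    set F : MvPolynomial ((Fin q × Fin (2 + 1)) ⊕ Fin (2 + 1)) k :=
      ∑ c, Sp (fun i j => X (Sum.inl (i, j))) (g 0) (g 1) (g 2) (g 3) c * X (Sum.inr c) with hF
    have hFe : ∀ {R : Type u} [CommRing R] [Algebra k R] (f : Fin q × Fin (2 + 1) → R) (y : Fin (2 + 1) → R),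
        aeval (Sum.elim f y) F = ∑ c, Sp (fun i j => f (i, j)) (g 0) (g 1) (g 2) (g 3) c * y c := by
      intro R _ _ f y
      rw [hF, map_sum]
      refine Finset.sum_congr rfl fun c _ => ?_
      rw [map_mul, aeval_X, Sum.elim_inr]
      congr 1
      have := sp_map6 (aeval (Sum.elim f y) : MvPolynomial ((Fin q × Fin (2 + 1)) ⊕ Fin (2 + 1)) k →ₐ[k] R).toRingHom
        (fun i j => X (Sum.inl (i, j))) (g 0) (g 1) (g 2) (g 3) c
      refine Eq.trans this ?_
      congr 1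
      funext i j
      exact aeval_X _ _
    have h5 := (hT.gen (fun p : Fin q × Fin (2 + 1) => fun a => l (φ a) p.1 p.2) (fun p => hsl p.1 p.2) F).1 (by
      rw [hFe, ← h4]
      unfold lv
      refine Finset.sum_congr rfl fun c _ => ?_
      congr 1
      exact (sp_map6 (algebraMap k' E) (fun i j => γ fun a => l (φ a) i j) _ _ _ _ c).symm)
    obtain ⟨a, ha⟩ := h5.exists
    rw [hFe] at ha
    apply hx (φ a) g hg
    have h6 : ((val (Sp (l (φ a)) (g 0) (g 1) (g 2) (g 3)) (x (φ a)) : fld (x (φ a))) : AlgebraicClosure k) = 0 := by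
      rw [← ha]
      unfold val
      rw [AddSubmonoidClass.coe_finsetSum]
      refine Finset.sum_congr rfl fun c _ => ?_
      have h7 : ((algebraMap k (fld (x (φ a))) (Sp (l (φ a)) (g 0) (g 1) (g 2) (g 3) c) * crd (x (φ a)) c : fld (x (φ a))) :
        AlgebraicClosure k) = algebraMap k (AlgebraicClosure k) (Sp (l (φ a)) (g 0) (g 1) (g 2) (g 3) c) * x (φ a) c := rfl
      rw [h7]
      congr 1
      exact sp_map6 (algebraMap k (AlgebraicClosure k)) (l (φ a)) _ _ _ _ c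
    exact ZeroMemClass.coe_eq_zero.1 h6

end Pool.Agent.TRI
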