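import Pool.Agent.Helper6.TRI.GDefs

/-!
# TRI: linear forms in an ideal
-/

set_option autoImplicit false

namespace Pool.Agent.TRI

open Module MvPolynomial

universe u

/-- the linear form with given coefficients -/
private noncomputable def lin6 (k₀ : Type*) [Field k₀] (N : ℕ) : (Fin (N + 1) → k₀) →ₗ[k₀] MvPolynomial (Fin (N + 1)) k₀ where
  toFun := fun m => ∑ j, C (m j) * X j
  map_add' := by
    intro m m'
    rw [← Finset.sum_add_distrib]
    exact Finset.sum_congr rfl fun j _ => by rw [Pi.add_apply, C_add, add_mul]
  map_smul' := by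
    intro c m
    rw [RingHom.id_apply, MvPolynomial.smul_eq_C_mul, Finset.mul_sum]
    exact Finset.sum_congr rfl fun j _ => by rw [Pi.smul_apply, smul_eq_mul, C_mul, mul_assoc]

private theorem coeff_lin6 {k₀ : Type*} [Field k₀] {N : ℕ} (m : Fin (N + 1) → k₀) (i : Fin (N + 1)) :
    coeff (Finsupp.single i 1) (lin6 k₀ N m) = m i := by
  show coeff (Finsupp.single i 1) (∑ j, C (m j) * X j) = m i
  rw [coeff_sum, Finset.sum_eq_single i]
  · rw [coeff_C_mul, coeff_X, if_pos rfl, mul_one]
  · intro j _ hj
    rw [coeff_C_mul, coeff_X, if_neg, mul_zero]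
    intro h
    exact hj (Finsupp.single_left_injective one_ne_zero h)
  · intro h
    exact absurd (Finset.mem_univ i) h

theorem finrank_lin {k₀ : Type u} [Field k₀] {N : ℕ} (I : Ideal (MvPolynomial (Fin (N + 1)) k₀)) :
    finrank k₀ ↥((I.restrictScalars k₀) ⊓ homogeneousSubmodule (Fin (N + 1)) k₀ 1) = finrank k₀ (linI I) := by
  have hinj : Function.Injective (lin6 k₀ N) := by
    intro m m' h
    funext i
    rw [← coeff_lin6 m i, ← coeff_lin6 m' i, h]
  have h1 : (linI I).map (lin6 k₀ N) = (I.restrictScalars k₀) ⊓ homogeneousSubmodule (Fin (N + 1)) k₀ 1 := by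
    ext p
    rw [Submodule.mem_map, Submodule.mem_inf, Submodule.restrictScalars_mem, mem_homogeneousSubmodule]
    constructor
    · rintro ⟨m, hm, rfl⟩
      refine ⟨hm, ?_⟩
      show (∑ j, C (m j) * X j : MvPolynomial (Fin (N + 1)) k₀).IsHomogeneous 1
      refine IsHomogeneous.sum _ _ _ fun j _ => ?_
      have := (isHomogeneous_C (Fin (N + 1)) (m j)).mul (isHomogeneous_X k₀ j)
      rwa [zero_add] at this
    · rintro ⟨hp, hp1⟩
      have h2 : lin6 k₀ N (fun i => coeff (Finsupp.single i 1) p) = p := by
        ext d
        by_cases hd : d.degree = 1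
        · obtain ⟨i, rfl⟩ : ∃ i, d = Finsupp.single i 1 := by
            have hd0 : d ≠ 0 := by
              rintro rfl
              rw [map_zero] at hd
              exact absurd hd (by decide)
            obtain ⟨i, hi⟩ := Finsupp.ne_iff.1 hd0
            refine ⟨i, ?_⟩
            have h5 : d.degree = d i + ∑ j ∈ Finset.univ.erase i, d j := by
              rw [Finsupp.degree_eq_sum, Finset.add_sum_erase _ _ (Finset.mem_univ i)]
            have h6 : 1 ≤ d i := Nat.one_le_iff_ne_zero.2 (by simpa using hi)
            have h7 : ∑ j ∈ Finset.univ.erase i, d j = 0 := by omega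
            ext j
            by_cases hij : i = j
            · subst hij
              rw [Finsupp.single_eq_same]
              omega
            · rw [Finsupp.single_apply, if_neg hij]
              exact Finset.sum_eq_zero_iff.1 h7 j (Finset.mem_erase.2 ⟨fun h => hij h.symm, Finset.mem_univ j⟩)
          rw [coeff_lin6]
        · have hl1 : (lin6 k₀ N (fun i => coeff (Finsupp.single i 1) p)).IsHomogeneous 1 := by
            show (∑ j, C (coeff (Finsupp.single j 1) p) * X j : MvPolynomial (Fin (N + 1)) k₀).IsHomogeneous 1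
            refine IsHomogeneous.sum _ _ _ fun j _ => ?_
            have := (isHomogeneous_C (Fin (N + 1)) (coeff (Finsupp.single j 1) p)).mul (isHomogeneous_X k₀ j)
            rwa [zero_add] at this
          rw [hl1.coeff_eq_zero hd, hp1.coeff_eq_zero hd]
      refine ⟨_, ?_, h2⟩
      show ∑ j, C (coeff (Finsupp.single j 1) p) * X j ∈ I
      have h3 : (∑ j, C (coeff (Finsupp.single j 1) p) * X j : MvPolynomial (Fin (N + 1)) k₀) = p := h2
      rw [h3]
      exact hp
  rw [← h1]
  exact (Submodule.equivMapOfInjective _ hinj _).finrank_eq.symm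

end Pool.Agent.TRI
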