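import Pool.Agent.Helper42.SQ.LIN2R

/-!
# TRI: few hyperplanes

If `q ≤ 2 r + n - 1`, the points of degree at most `r` of the projective space which are integral for `q` hyperplanes are dense: take the
lines through a common point of `n` of the hyperplanes.
-/

set_option autoImplicit false

namespace Pool.Agent.TRI

open Module MvPolynomial NumberField
open Pool.Agent.Helper64.Vojta (Pl nv)
open Pool.Agent.Chart (fld dg crd hgt val lam)

universe u v

private theorem scale6 {k : Type u} {K : Type v} [Field k] [Field K] [Algebra k K] {n e : ℕ} {Q : MvPolynomial (Fin n) k}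
    (hQ : Q.IsHomogeneous e) (t : K) (x : Fin n → K) : aeval (fun j => t * x j) Q = t ^ e * aeval x Q := by
  rw [aeval_def, aeval_def, eval₂_eq', eval₂_eq', Finset.mul_sum]
  refine Finset.sum_congr rfl fun d hd => ?_
  have h1 : d.degree = e := by
    rw [Finsupp.degree_eq_weight_one]
    exact hQ (mem_support_iff.1 hd)
  have h2 : ∏ i, (t * x i) ^ d i = t ^ e * ∏ i, x i ^ d i := by
    simp only [mul_pow]
    rw [Finset.prod_mul_distrib, Finset.prod_pow_eq_pow_sum, ← h1, Finsupp.degree_eq_sum]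
  rw [h2]
  ring

/-- only finitely many normalised points of a line are zeros of a form which is not zero on the line -/
private theorem finite6 {k : Type u} [Field k] {n e : ℕ} (P₁ P₂ : Fin n → k) {Q : MvPolynomial (Fin n) k}
    (hQ : Q.IsHomogeneous e) (h2 : eval P₂ Q ≠ 0) :
    {x : Fin n → AlgebraicClosure k | (∃ j, x j = 1) ∧ (∃ s t : AlgebraicClosure k, ∀ j, x j = s * algebraMap k _ (P₁ j) +
      t * algebraMap k _ (P₂ j)) ∧ aeval x Q = 0}.Finite := by
  classical
  set g : Polynomial k := aeval (fun j => Polynomial.C (P₁ j) * Polynomial.X + Polynomial.C (P₂ j)) Q with hg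
  have hev : ∀ z : AlgebraicClosure k, Polynomial.aeval z g =
      aeval (fun j => algebraMap k (AlgebraicClosure k) (P₁ j) * z + algebraMap k _ (P₂ j)) Q := by
    intro z
    rw [hg, MvPolynomial.comp_aeval_apply]
    congr 2
    funext j
    simp
  have hg0 : g ≠ 0 := by
    intro h
    apply h2
    have h3 : Polynomial.eval 0 g = eval P₂ Q := by
      rw [hg, ← Polynomial.coe_aeval_eq_eval, MvPolynomial.comp_aeval_apply, ← MvPolynomial.coe_aeval_eq_eval]
      simp
    rw [← h3, h, Polynomial.eval_zero]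
  set a : Fin n → AlgebraicClosure k := fun j => algebraMap k _ (P₁ j) with ha
  set b : Fin n → AlgebraicClosure k := fun j => algebraMap k _ (P₂ j) with hb
  have hfin : ((Set.range fun j : Fin n => fun i => (a j)⁻¹ * a i) ∪
      Set.image2 (fun z j => fun i => (a j * z + b j)⁻¹ * (a i * z + b i)) (g.rootSet (AlgebraicClosure k)) Set.univ).Finite :=
    (Set.finite_range _).union (Set.Finite.image2 _ (g.rootSet_finite _) Set.finite_univ)
  refine hfin.subset ?_
  rintro x ⟨⟨j, hj⟩, ⟨s, t, hst⟩, hx⟩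
  by_cases ht : t = 0
  · left
    refine ⟨j, funext fun i => ?_⟩
    have h3 : s * a j = 1 := by
      rw [← hj, hst, ht, zero_mul, add_zero]
    have h4 : a j ≠ 0 := right_ne_zero_of_mul_eq_one h3
    have h5 : s = (a j)⁻¹ := eq_inv_of_mul_eq_one_left h3
    show (a j)⁻¹ * a i = x i
    rw [hst, ht, zero_mul, add_zero, h5]
  · right
    have h3 : ∀ i, x i = t * (a i * (s / t) + b i) := by
      intro i
      rw [hst]
      show s * a i + t * b i = t * (a i * (s / t) + b i)
      field_simp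
    refine Set.mem_image2.2 ⟨s / t, ?_, j, Set.mem_univ j, funext fun i => ?_⟩
    · rw [Polynomial.mem_rootSet']
      refine ⟨(Polynomial.map_ne_zero_iff (algebraMap k (AlgebraicClosure k)).injective).2 hg0, ?_⟩
      rw [hev]
      have h4 := scale6 hQ t fun i => a i * (s / t) + b i
      rw [← (funext h3 : x = fun i => t * (a i * (s / t) + b i)), hx] at h4
      exact (mul_eq_zero.1 h4.symm).resolve_left (pow_ne_zero _ ht)
    · have h4 : t * (a j * (s / t) + b j) = 1 := by
        rw [← h3, hj]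
      have h5 : t = (a j * (s / t) + b j)⁻¹ := eq_inv_of_mul_eq_one_left h4
      show (a j * (s / t) + b j)⁻¹ * (a i * (s / t) + b i) = x i
      rw [← h5, h3 i]

theorem low_pn {k : Type u} [Field k] [NumberField k] {n q r e : ℕ} (hr : 1 ≤ r) (hn : 1 ≤ n) (hq : q + 1 ≤ 2 * r + n)
    (S : Finset (Pl k)) (hS : ∀ ν, ν ∉ S → nv ν (2 : k) = 1) (l : Fin q → Fin (n + 1) → k) (hl : ∀ i, l i ≠ 0)
    (Q : MvPolynomial (Fin (n + 1)) k) (hQ : Q.IsHomogeneous e) (hQ0 : Q ≠ 0) :
    ∃ C : ℝ, {x : Fin (n + 1) → AlgebraicClosure k | ((∃ j, x j = 1) ∧ dg x ≤ r ∧ (∀ i, val (l i) x ≠ 0) ∧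
      q * hgt x - C ≤ ∑ ν ∈ S, ∑ i, lam (l i) ν x) ∧ aeval x Q ≠ 0}.Infinite := by
  classical
  -- the set of hyperplanes through the point
  obtain ⟨J, hJn, hJq⟩ : ∃ J : Finset (Fin q), J.card ≤ n ∧ (q + 1 ≤ 2 * r + J.card ∨ Finset.univ = J) := by
    rcases Nat.le_total n q with h | h
    · obtain ⟨J, -, hJ⟩ := Finset.exists_subset_card_eq (s := (Finset.univ : Finset (Fin q))) (n := n) (by simpa using h)
      exact ⟨J, hJ.le, Or.inl (by omega)⟩
    · exact ⟨Finset.univ, by simpa using h, Or.inr rfl⟩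
  obtain ⟨P₁, hP0, hP₁⟩ : ∃ P₁ : Fin (n + 1) → k, P₁ ≠ 0 ∧ ∀ i ∈ J, ∑ a, l i a * P₁ a = 0 := by
    let f : (Fin (n + 1) → k) →ₗ[k] (J → k) :=
      LinearMap.pi fun i => ∑ a, l i.1 a • LinearMap.proj a
    have h1 : LinearMap.ker f ≠ ⊥ := LinearMap.ker_ne_bot_of_finrank_lt (by
      rw [Module.finrank_pi, Module.finrank_pi, Fintype.card_coe, Fintype.card_fin]
      omega)
    obtain ⟨P, hP, hP0⟩ := Submodule.exists_mem_ne_zero_of_ne_bot h1
    refine ⟨P, hP0, fun i hi => ?_⟩
    have h2 := congrFun (LinearMap.mem_ker.1 hP) ⟨i, hi⟩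
    simpa [f, LinearMap.sum_apply] using h2
  obtain ⟨a, ha⟩ : ∃ a, P₁ a ≠ 0 := by
    by_contra hcon
    push Not at hcon
    exact hP0 (funext hcon)
  obtain ⟨b, hb⟩ : ∃ b : Fin (n + 1), b ≠ a := by
    have : Nontrivial (Fin (n + 1)) := Fin.nontrivial_iff_two_le.2 (by omega)
    exact exists_ne a
  -- a second point
  set F : MvPolynomial (Fin (n + 1)) k := Q * (∏ i, ∑ c, C (l i c) * X c) * (C (P₁ a) * X b - C (P₁ b) * X a) with hF
  have hF0 : F ≠ 0 := by
    refine mul_ne_zero (mul_ne_zero hQ0 (Finset.prod_ne_zero_iff.2 fun i _ h => hl i ?_)) fun h => ha ?_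
    · funext c
      have h1 := congrArg (eval (Pi.single c 1 : Fin (n + 1) → k)) h
      simpa [Pi.single_apply] using h1
    · have h1 := congrArg (eval (Pi.single b 1 : Fin (n + 1) → k)) h
      simpa [Pi.single_apply, hb.symm] using h1
  obtain ⟨P₂, hP₂⟩ : ∃ P₂ : Fin (n + 1) → k, eval P₂ F ≠ 0 := by
    by_contra hcon
    push Not at hcon
    exact hF0 (MvPolynomial.funext fun x => by rw [hcon x, map_zero])
  rw [hF, map_mul, map_mul, map_prod] at hP₂
  have h3 : eval P₂ Q ≠ 0 := left_ne_zero_of_mul (left_ne_zero_of_mul hP₂)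
  have h4 : ∀ i, ∑ c, l i c * P₂ c ≠ 0 := by
    intro i
    have := Finset.prod_ne_zero_iff.1 (right_ne_zero_of_mul (left_ne_zero_of_mul hP₂)) i (Finset.mem_univ i)
    simpa using this
  have h5 : P₁ a * P₂ b - P₁ b * P₂ a ≠ 0 := by
    simpa using right_ne_zero_of_mul hP₂
  have hind : LinearIndependent k ![P₁, P₂] := by
    rw [LinearIndependent.pair_iff]
    intro s t h
    have e1 := congrFun h a
    have e2 := congrFun h b
    rw [Pi.add_apply, Pi.smul_apply, Pi.smul_apply, smul_eq_mul, smul_eq_mul, Pi.zero_apply] at e1 e2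
    have ht : t = 0 := by
      have : t * (P₁ a * P₂ b - P₁ b * P₂ a) = 0 := by linear_combination P₁ a * e2 - P₁ b * e1
      exact (mul_eq_zero.1 this).resolve_right h5
    rw [ht, zero_mul, add_zero] at e1
    exact ⟨(mul_eq_zero.1 e1).resolve_right ha, ht⟩
  -- the classes
  obtain ⟨W, hWc, hWD⟩ : ∃ W : Finset (Fin q), W.card ≤ 2 * r ∧ ∀ i, ∃ j ∈ W, (∑ a, l i a * P₁ a) * (∑ a, l j a * P₂ a) =
      (∑ a, l j a * P₁ a) * (∑ a, l i a * P₂ a) := by
    rcases J.eq_empty_or_nonempty with hJ | ⟨j₀, hj₀⟩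
    · refine ⟨Finset.univ, ?_, fun i => ⟨i, Finset.mem_univ i, rfl⟩⟩
      rcases hJq with h | h
      · rw [hJ, Finset.card_empty] at h
        rw [Finset.card_univ, Fintype.card_fin]
        omega
      · rw [h, hJ, Finset.card_empty]
        omega
    · refine ⟨(J.erase j₀)ᶜ, ?_, fun i => ?_⟩
      · rw [Finset.card_compl, Fintype.card_fin, Finset.card_erase_of_mem hj₀]
        have hpos : 0 < J.card := Finset.card_pos.2 ⟨j₀, hj₀⟩
        rcases hJq with h | h
        · omega
        · have h6 : J.card = q := by rw [← h, Finset.card_univ, Fintype.card_fin]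
          omega
      · by_cases hi : i ∈ J.erase j₀
        · refine ⟨j₀, Finset.mem_compl.2 fun h => (Finset.mem_erase.1 h).1 rfl, ?_⟩
          rw [hP₁ i (Finset.mem_erase.1 hi).2, hP₁ j₀ hj₀, zero_mul, zero_mul]
        · exact ⟨i, Finset.mem_compl.2 hi, rfl⟩
  obtain ⟨C, hC⟩ := Pool.Agent.SQ.line2r_S hr l P₁ P₂ hind (fun i => Or.inr (h4 i)) W hWc hWD S hS
  refine ⟨C, fun hfinite => ?_⟩
  obtain ⟨B, hB⟩ := (hfinite.image hgt).bddAbove
  obtain ⟨B', hB'⟩ := ((finite6 P₁ P₂ hQ h3).image hgt).bddAbove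
  obtain ⟨x, b1, b2, b3, b4, b5, b6⟩ := hC (max B B' + 1)
  have h7 : aeval x Q ≠ 0 := by
    intro h
    have : hgt x ≤ B' := hB' ⟨x, ⟨b1, b2, h⟩, rfl⟩
    have := le_max_right B B'
    linarith
  have : hgt x ≤ B := hB ⟨x, ⟨⟨b1, b3, b4, b6⟩, h7⟩, rfl⟩
  have := le_max_left B B'
  linarith

end Pool.Agent.TRI
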