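import Pool.Agent.Helper6.TRI.Fin
import Pool.Agent.Helper23.TRI.VerSurf
import Pool.Agent.Helper29.TRI.VerAr
import Pool.Agent.Helper29.TRI.VerFin

/-!
# TRI: sections of degree `d`
-/

set_option autoImplicit false

namespace Pool.Agent.TRI

open Module MvPolynomial
open Pool.Agent.Helper64.Vojta (Pl nv sn above)
open Pool.Agent.Chart (fld dg crd hgt val lam)

universe u

theorem out_surf {k₀ : Type u} [Field k₀] [NumberField k₀] {N q r d : ℕ} (hd : 1 ≤ d) (hq : 2 * r + 2 ≤ q)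
    {I : Ideal (MvPolynomial (Fin (N + 1)) k₀)} (hX : Surf I) (h : 2 * r + 3 ≤ q ∨ 2 ≤ d ∨ ¬ Plane I) :
    ∃ Φ : MvPolynomial (Fin q × Sym (Fin (N + 1)) d) k₀, Φ ≠ 0 ∧
      ∀ (k : Type u) [Field k] [NumberField k] [Algebra k₀ k] (g : Fin q → Sym (Fin (N + 1)) d → k),
      aeval (fun p : Fin q × Sym (Fin (N + 1)) d => g p.1 p.2) Φ ≠ 0 → ∀ (S : Finset (Pl k)) (C : ℝ),
      {x : Fin (N + 1) → AlgebraicClosure k | (∃ j, x j = 1) ∧ OnX I x ∧ dg x ≤ r ∧ (∀ i, valS (g i) x ≠ 0) ∧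
        q * d * hgt x - C ≤ ∑ ν ∈ S, ∑ i, lamS (g i) ν x}.Finite := by
  obtain ⟨N', e, I', hX', hP2, hP1, hon⟩ := ver_surf hd hX
  have h' : 2 * r + 3 ≤ q ∨ ¬ Plane I' := by
    rcases h with h | h | h
    · exact Or.inl h
    · exact Or.inr (hP2 h)
    · rcases Nat.lt_or_ge 1 d with h2 | h2
      · exact Or.inr (hP2 h2)
      · exact Or.inr fun h3 => h ((hP1 (le_antisymm h2 hd)).1 h3)
  obtain ⟨Φ, hΦ, hfin⟩ := fin_surf hq hX' h'
  refine ⟨rename (fun p : Fin q × Fin (N' + 1) => (p.1, e p.2)) Φ, ?_, ?_⟩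
  · intro h0
    apply hΦ
    apply rename_injective (fun p : Fin q × Fin (N' + 1) => (p.1, e p.2))
    · rintro ⟨a, b⟩ ⟨a', b'⟩ hab
      rw [Prod.mk.injEq] at hab
      exact Prod.ext hab.1 (e.injective hab.2)
    · rw [h0, map_zero]
  · intro k _ _ _ g hg S C
    rw [aeval_rename] at hg
    have hT := hfin k (fun i j => g i (e j)) hg S C
    refine (ver_fin hd e _ hT).subset ?_
    rintro x ⟨h1, h2, h3, h4, h5⟩
    obtain ⟨a1, a2, a3, a4⟩ := ver_ar (k := k) hd e x h1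
    refine ⟨h1, a1, hon _ x h2, a2.le.trans h3, fun i hi => h4 i (((a4 (g i)).1).1 hi), ?_⟩
    rw [a3]
    have h6 : ∑ ν ∈ S, ∑ i, lam (fun j => g i (e j)) ν (ver e x) = ∑ ν ∈ S, ∑ i, lamS (g i) ν x :=
      Finset.sum_congr rfl fun ν _ => Finset.sum_congr rfl fun i _ => (a4 (g i)).2 ν
    rw [h6]
    have h7 : (q : ℝ) * (d * hgt x) = q * d * hgt x := by ring
    rw [h7]
    exact h5

end Pool.Agent.TRI
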