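import Pool.Agent.Helper6.TRI.Fin
import Pool.Agent.Helper42.SQ.LIN2N

/-!
# TRI: the plane, `q = 2 r + 2`
-/

set_option autoImplicit false

namespace Pool.Agent.TRI

open Module MvPolynomial
open Pool.Agent.Helper64.Vojta (Pl nv sn above)
open Pool.Agent.Chart (fld dg crd hgt val lam)

/-- the determinant of three of the forms, as a polynomial in the coefficients -/
private noncomputable def det6 {q : ℕ} (i j m : Fin q) : MvPolynomial (Fin q × Fin 3) ℚ :=
  dt (fun c => X (i, c)) (fun c => X (j, c)) (fun c => X (m, c))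

private theorem aeval_det6 {k : Type*} [Field k] [CharZero k] {q : ℕ} (l : Fin q → Fin 3 → k) (i j m : Fin q) :
    aeval (fun p : Fin q × Fin 3 => l p.1 p.2) (det6 i j m) = dt (l i) (l j) (l m) := by
  simp only [det6, dt, cr, Fin.sum_univ_three, Matrix.cons_val_zero, Matrix.cons_val_one,
    Matrix.cons_val_two, Matrix.head_cons, Matrix.tail_cons, map_add, map_mul, map_sub, aeval_X]

private theorem det6_ne {q : ℕ} {i j m : Fin q} (hij : i ≠ j) (him : i ≠ m) (hjm : j ≠ m) : det6 i j m ≠ 0 := by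
  intro h
  have h1 := aeval_det6 (k := ℚ) (fun a => if a = i then Pi.single 0 1 else if a = j then Pi.single 1 1 else Pi.single 2 1) i j m
  rw [h, map_zero] at h1
  simp only [if_true, hij.symm, him.symm, hjm.symm, if_false] at h1
  simp [dt, cr, Pi.single_apply] at h1

private theorem dt_self6 {k : Type*} [Field k] (u v : Fin 3 → k) : dt u u v = 0 ∧ dt v u v = 0 := by
  constructor <;> simp [dt, cr, Fin.sum_univ_three] <;> ring

theorem out_plane {q r : ℕ} (hr : 1 ≤ r) (hq : q = 2 * r + 2) :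
    ∃ Φ : MvPolynomial (Fin q × Fin 3) ℚ, Φ ≠ 0 ∧
      ∀ (k : Type) [Field k] [NumberField k] (l : Fin q → Fin 3 → k),
      aeval (fun p : Fin q × Fin 3 => l p.1 p.2) Φ ≠ 0 → ∀ S : Finset (Pl k),
      (∀ C : ℝ, {x : Fin 3 → AlgebraicClosure k | ((∃ j, x j = 1) ∧ dg x ≤ r ∧ (∀ i, val (l i) x ≠ 0) ∧
        q * hgt x - C ≤ ∑ ν ∈ S, ∑ i, lam (l i) ν x) ∧ ∀ i j m n : Fin q, i ≠ j → m ≠ n → i ≠ m → i ≠ n → j ≠ m → j ≠ n →
          val (Sp l i j m n) x ≠ 0}.Finite) ∧
      ((∀ ν, ν ∉ S → nv ν (2 : k) = 1) → ∀ i j m n : Fin q, i ≠ j → m ≠ n → i ≠ m → i ≠ n → j ≠ m → j ≠ n → Sp l i j m n ≠ 0 ∧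
        ∃ C : ℝ, {x : Fin 3 → AlgebraicClosure k | ((∃ j, x j = 1) ∧ dg x ≤ r ∧ (∀ i, val (l i) x ≠ 0) ∧
        q * hgt x - C ≤ ∑ ν ∈ S, ∑ i, lam (l i) ν x) ∧ val (Sp l i j m n) x = 0}.Infinite) := by
  classical
  obtain ⟨Φ, hΦ, hfin⟩ := fin_plane (k₀ := ℚ) (q := q) (r := r) (by omega)
  refine ⟨Φ * ∏ i, ∏ j, ∏ m, (if i ≠ j ∧ i ≠ m ∧ j ≠ m then det6 i j m else 1), ?_, ?_⟩
  · refine mul_ne_zero hΦ (Finset.prod_ne_zero_iff.2 fun i _ => Finset.prod_ne_zero_iff.2 fun j _ => Finset.prod_ne_zero_iff.2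
      fun m _ => ?_)
    split_ifs with h
    · exact det6_ne h.1 h.2.1 h.2.2
    · exact one_ne_zero
  intro k _ _ l hl S
  rw [map_mul] at hl
  have hl1 := left_ne_zero_of_mul hl
  have hl2 := right_ne_zero_of_mul hl
  have hdet : ∀ i j m : Fin q, i ≠ j → i ≠ m → j ≠ m → dt (l i) (l j) (l m) ≠ 0 := by
    intro i j m hij him hjm h0
    rw [map_prod] at hl2
    have h1 := Finset.prod_ne_zero_iff.1 hl2 i (Finset.mem_univ i)
    rw [map_prod] at h1
    have h2 := Finset.prod_ne_zero_iff.1 h1 j (Finset.mem_univ j)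
    rw [map_prod] at h2
    have h3 := Finset.prod_ne_zero_iff.1 h2 m (Finset.mem_univ m)
    rw [if_pos ⟨hij, him, hjm⟩, aeval_det6] at h3
    exact h3 h0
  constructor
  · intro C
    have h1 := hfin k l hl1 S C
    refine h1.subset ?_
    rintro x ⟨⟨a1, a2, a3, a4⟩, a5⟩
    refine ⟨⟨a1, ?_, a2, a3, a4⟩, ?_⟩
    · intro g hg
      rw [Ideal.mem_bot] at hg
      rw [hg, map_zero]
    · intro g hg
      exact a5 (g 0) (g 1) (g 2) (g 3) (fun h => absurd (hg h) (by decide)) (fun h => absurd (hg h) (by decide))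
        (fun h => absurd (hg h) (by decide)) (fun h => absurd (hg h) (by decide)) (fun h => absurd (hg h) (by decide))
        (fun h => absurd (hg h) (by decide))
  · intro hS i j m n hij hmn him hin hjm hjn
    have hP : ∀ a b : Fin q, a ≠ b → ∀ s, ∑ c, l s c * cr (l a) (l b) c = 0 ↔ s = a ∨ s = b := by
      intro a b hab s
      constructor
      · intro h
        by_contra hcon
        push Not at hcon
        exact hdet s a b hcon.1 hcon.2 hab h
      · rintro (rfl | rfl)
        · exact (dt_self6 (l s) (l b)).1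
        · exact (dt_self6 (l a) (l s)).2
    obtain ⟨C, hC⟩ := Pool.Agent.SQ.nodes2r hr hq.le l i j m n hij hmn him hin hjm hjn (cr (l i) (l j)) (cr (l m) (l n))
      (hP i j hij) (hP m n hmn) S hS
    have hSp : Sp l i j m n ≠ 0 := by
      intro h0
      -- `P₁ × P₂ = 0`, so `l i (P₂) P₁ = l i (P₁) P₂ = 0`
      have h1 : ∑ c, l i c * cr (l m) (l n) c ≠ 0 := fun h => by
        rcases (hP m n hmn i).1 h with h | h
        · exact him h
        · exact hin h
      have h2 : ∑ c, l m c * cr (l i) (l j) c ≠ 0 := fun h => by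
        rcases (hP i j hij m).1 h with h | h
        · exact him h.symm
        · exact hjm h.symm
      have h3 : ∑ c, l i c * cr (l i) (l j) c = 0 := (hP i j hij i).2 (Or.inl rfl)
      have key : ∀ (u v P Q : Fin 3 → k), cr P Q = 0 → (∑ c, u c * P c) * (∑ c, v c * Q c) = (∑ c, v c * P c) * (∑ c, u c * Q c) := by
        intro u v P Q h
        have e0 := congrFun h 0
        have e1 := congrFun h 1
        have e2 := congrFun h 2
        simp only [cr, Matrix.cons_val_zero, Matrix.cons_val_one, Matrix.cons_val, Pi.zero_apply] at e0 e1 e2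
        simp only [Fin.sum_univ_three]
        linear_combination (u 1 * v 2 - u 2 * v 1) * e0 + (u 2 * v 0 - u 0 * v 2) * e1 + (u 0 * v 1 - u 1 * v 0) * e2
      have h4 := key (l i) (l m) _ _ h0
      rw [h3, zero_mul] at h4
      exact mul_ne_zero h2 h1 h4.symm
    refine ⟨hSp, C, ?_⟩
    intro hF
    obtain ⟨B, hB⟩ := (hF.image hgt).bddAbove
    obtain ⟨x, b1, ⟨s, t, hst⟩, b2, b3, b4, b5⟩ := hC (B + 1)
    have b6 : val (Sp l i j m n) x = 0 := by
      have h1 : ((val (Sp l i j m n) x : fld x) : AlgebraicClosure k) = 0 := by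
        unfold val
        rw [AddSubmonoidClass.coe_finsetSum]
        have h2 : ∀ c, ((algebraMap k (fld x) (Sp l i j m n c) * crd x c : fld x) : AlgebraicClosure k) =
          algebraMap k (AlgebraicClosure k) (Sp l i j m n c) * x c := fun c => rfl
        simp only [h2, hst]
        have h3 : ∀ P Q : Fin 3 → k, ∑ c, algebraMap k (AlgebraicClosure k) (cr P Q c) *
          (s * algebraMap k _ (P c) + t * algebraMap k _ (Q c)) = 0 := by
          intro P Q
          simp only [cr, Fin.sum_univ_three, Matrix.cons_val_zero, Matrix.cons_val_one, Matrix.cons_val, map_sub, map_mul]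
          ring
        exact h3 _ _
      exact ZeroMemClass.coe_eq_zero.1 h1
    have h7 : hgt x ≤ B := hB ⟨x, ⟨⟨b1, b2, b3, b5⟩, b6⟩, rfl⟩
    linarith

end Pool.Agent.TRI
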